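import Mathlib
import Pool.Agent.Lib.MP_b197b4_ntK.Sym
import Pool.Agent.Lib.MP_b197b4_ntK.Unit

/-!
# MP_b197b4_nt, project K1: linear forms and the affine charts `w ≠ 0`

`chartOf k x w` is the ring of the functions `s / w ^ m`, `s` a form of degree `m`. For a projective
regular surface it is a chart for every linear form `w ≠ 0`, its maximal ideals are the closed
points at which `w` does not vanish, and its prime ideals of height one are the curves on which `w`
does not vanish.
-/

set_option autoImplicit false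

namespace Pool.Agent.Lib.MP_b197b4_ntK

open IsLocalRing

/-- The functions `s / w ^ m`, `s` a form of degree `m`. -/
def chartOf (k : Type) {F : Type} [Field k] [Field F] [Algebra k F] {n : ℕ} (x : Fin (n + 1) → F)
    (w : F) : Subalgebra k F :=
  Algebra.adjoin k (Set.range fun j => x j / w)

/-- `w` is a linear form which does not vanish at the point with the local ring `O`. -/
structure Gen (k : Type) {F : Type} [Field k] [Field F] [Algebra k F] {n : ℕ} (x : Fin (n + 1) → F)
    (O : Subring F) (w : F) : Prop where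
  mem : w ∈ Submodule.span k (Set.range x)
  ne : w ≠ 0
  le : ∀ j, x j / w ∈ O

section

variable {k F : Type} [Field k] [Field F] [Algebra k F] {n : ℕ} {x : Fin (n + 1) → F}

theorem x_mem_span (x : Fin (n + 1) → F) (j : Fin (n + 1)) :
    x j ∈ Submodule.span k (Set.range x) :=
  Submodule.subset_span ⟨j, rfl⟩

theorem mem_hom_one {w : F} : w ∈ hom k x 1 ↔ w ∈ Submodule.span k (Set.range x) := by
  unfold hom
  rw [pow_one]

theorem mul_mem_hom {a b : ℕ} {f g : F} (hf : f ∈ hom k x a) (hg : g ∈ hom k x b) :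
    f * g ∈ hom k x (a + b) := by
  unfold hom at *
  rw [pow_add]
  exact Submodule.mul_mem_mul hf hg

theorem pow_mem_hom {a : ℕ} {f : F} (hf : f ∈ hom k x a) (m : ℕ) :
    f ^ m ∈ hom k x (a * m) := by
  unfold hom at *
  rw [pow_mul]
  exact Submodule.pow_mem_pow _ hf m

theorem hom_one_mem : (1 : F) ∈ hom k x 0 := by
  unfold hom
  rw [pow_zero]
  exact Submodule.mem_one.2 ⟨1, map_one _⟩

theorem const_mem_hom (c : k) : algebraMap k F c ∈ hom k x 0 := by
  rw [Algebra.algebraMap_eq_smul_one]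
  exact Submodule.smul_mem _ c hom_one_mem

theorem pow_mem_hom' {w : F} (hw : w ∈ Submodule.span k (Set.range x)) (m : ℕ) :
    w ^ m ∈ hom k x m := by
  have := pow_mem_hom (mem_hom_one.2 hw) m
  rwa [one_mul] at this

/-- Induction on forms: every form of degree `d + 1` is a sum of products of a form of degree `d`
and a coordinate. -/
theorem hom_induction {p : ℕ → F → Prop} (h0 : ∀ c : k, p 0 (algebraMap k F c))
    (hmul : ∀ d f (j : Fin (n + 1)), f ∈ hom k x d → p d f → p (d + 1) (f * x j))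
    (hadd : ∀ d f g, p d f → p d g → p d (f + g)) (hzero : ∀ d, p d 0)
    (hsmul : ∀ d (c : k) f, p d f → p d (c • f)) {d : ℕ} {f : F} (hf : f ∈ hom k x d) :
    p d f := by
  induction d generalizing f with
  | zero =>
    unfold hom at hf
    rw [pow_zero] at hf
    obtain ⟨c, rfl⟩ := Submodule.mem_one.1 hf
    exact h0 c
  | succ d ih =>
    unfold hom at hf
    rw [pow_succ] at hf
    refine Submodule.mul_induction_on hf ?_ ?_
    · intro a ha b hb
      induction hb using Submodule.span_induction with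
      | mem y hy =>
        obtain ⟨j, rfl⟩ := hy
        exact hmul d a j ha (ih ha)
      | zero =>
        rw [mul_zero]
        exact hzero _
      | add y z _ _ h1 h2 =>
        rw [mul_add]
        exact hadd _ _ _ h1 h2
      | smul c y _ h1 =>
        rw [mul_smul_comm]
        exact hsmul _ _ _ h1
    · intro a b ha hb
      exact hadd _ _ _ ha hb

theorem div_mem_chartOf {w s : F} {m : ℕ} (hs : s ∈ hom k x m) :
    s / w ^ m ∈ chartOf k x w := by
  refine hom_induction (p := fun d f => f / w ^ d ∈ chartOf k x w) ?_ ?_ ?_ ?_ ?_ hs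
  · intro c
    rw [pow_zero, div_one]
    exact (chartOf k x w).algebraMap_mem c
  · intro d f j _ h
    rw [pow_succ, ← div_mul_div_comm]
    exact (chartOf k x w).mul_mem h (Algebra.subset_adjoin ⟨j, rfl⟩)
  · intro d f g hf hg
    rw [add_div]
    exact (chartOf k x w).add_mem hf hg
  · intro d
    rw [zero_div]
    exact (chartOf k x w).zero_mem
  · intro d c f hf
    rw [smul_div_assoc]
    exact (chartOf k x w).smul_mem hf c

/-- The functions in the chart. -/
theorem mem_chartOf_iff {w : F} (hw : w ∈ Submodule.span k (Set.range x)) (hw0 : w ≠ 0) {f : F} :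
    f ∈ chartOf k x w ↔ ∃ m : ℕ, ∃ s ∈ hom k x m, f = s / w ^ m := by
  constructor
  · intro hf
    unfold chartOf at hf
    induction hf using Algebra.adjoin_induction with
    | mem y hy =>
      obtain ⟨j, rfl⟩ := hy
      exact ⟨1, x j, mem_hom_one.2 (x_mem_span x j), by rw [pow_one]⟩
    | algebraMap c => exact ⟨0, _, const_mem_hom c, by rw [pow_zero, div_one]⟩
    | add y z _ _ h1 h2 =>
      obtain ⟨m, s, hs, rfl⟩ := h1
      obtain ⟨l, t, ht, rfl⟩ := h2
      refine ⟨m + l, s * w ^ l + w ^ m * t, Submodule.add_mem _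
        (mul_mem_hom hs (pow_mem_hom' hw l)) (mul_mem_hom (pow_mem_hom' hw m) ht), ?_⟩
      rw [div_add_div _ _ (pow_ne_zero _ hw0) (pow_ne_zero _ hw0), pow_add]
    | mul y z _ _ h1 h2 =>
      obtain ⟨m, s, hs, rfl⟩ := h1
      obtain ⟨l, t, ht, rfl⟩ := h2
      refine ⟨m + l, s * t, mul_mem_hom hs ht, ?_⟩
      rw [div_mul_div_comm, pow_add]
  · rintro ⟨m, s, hs, rfl⟩
    exact div_mem_chartOf hs

/-- Several functions in the chart have a common denominator. -/
theorem exists_common {w : F} (hw : w ∈ Submodule.span k (Set.range x)) (hw0 : w ≠ 0) {f : F}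
    (hf : f ∈ chartOf k x w) : ∃ m0 : ℕ, ∀ m, m0 ≤ m → f * w ^ m ∈ hom k x m := by
  obtain ⟨m0, s, hs, rfl⟩ := (mem_chartOf_iff hw hw0).1 hf
  refine ⟨m0, fun m hm => ?_⟩
  obtain ⟨l, rfl⟩ := Nat.exists_eq_add_of_le hm
  have h1 : s / w ^ m0 * w ^ (m0 + l) = s * w ^ l := by
    rw [pow_add]
    field_simp
  rw [h1]
  exact mul_mem_hom hs (pow_mem_hom' hw l)

theorem Gen.chart_le {O : Subring F} (hk : ∀ c : k, algebraMap k F c ∈ O) {w : F}
    (h : Gen k x O w) : ∀ a ∈ chartOf k x w, a ∈ O := by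
  intro a ha
  unfold chartOf at ha
  induction ha using Algebra.adjoin_induction with
  | mem y hy =>
    obtain ⟨j, rfl⟩ := hy
    exact h.le j
  | algebraMap c => exact hk c
  | add y z _ _ h1 h2 => exact O.add_mem h1 h2
  | mul y z _ _ h1 h2 => exact O.mul_mem h1 h2

theorem Gen.div_mem {O : Subring F} (hk : ∀ c : k, algebraMap k F c ∈ O) {w : F} (h : Gen k x O w)
    {s : F} {m : ℕ} (hs : s ∈ hom k x m) : s / w ^ m ∈ O :=
  h.chart_le hk _ (div_mem_chartOf hs)

theorem Gen.lin {O : Subring F} (hk : ∀ c : k, algebraMap k F c ∈ O) {w v : F} (h : Gen k x O w)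
    (hv : v ∈ Submodule.span k (Set.range x)) : v / w ∈ O := by
  have := h.div_mem hk (mem_hom_one.2 hv)
  rwa [pow_one] at this

/-- Another linear form `v` is also a generator if `w / v` is in `O`. -/
theorem Gen.of_div {O : Subring F} {w v : F} (h : Gen k x O w)
    (hv : v ∈ Submodule.span k (Set.range x)) (hv0 : v ≠ 0) (h1 : w / v ∈ O) : Gen k x O v where
  mem := hv
  ne := hv0
  le j := by
    have := O.mul_mem (h.le j) h1
    rwa [div_mul_div_cancel₀ h.ne] at this

theorem lin_of_le {O : Subring F} (hk : ∀ c : k, algebraMap k F c ∈ O) {w v : F}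
    (h : ∀ j, x j / w ∈ O) (hv : v ∈ Submodule.span k (Set.range x)) : v / w ∈ O := by
  induction hv using Submodule.span_induction with
  | mem y hy =>
    obtain ⟨j, rfl⟩ := hy
    exact h j
  | zero =>
    rw [zero_div]
    exact O.zero_mem
  | add y z _ _ h1 h2 =>
    rw [add_div]
    exact O.add_mem h1 h2
  | smul c y _ h1 =>
    rw [smul_div_assoc, Algebra.smul_def]
    exact O.mul_mem (hk c) h1

theorem charts_eq (i : Fin (n + 1)) :
    chartOf k x (x i) = Algebra.adjoin k (Set.range fun j => x j / x i) := rfl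

theorem chartOf_mem_charts (i : Fin (n + 1)) : chartOf k x (x i) ∈ charts k x := ⟨i, rfl⟩

theorem mem_of_isLoc {A : Subalgebra k F} {m : Ideal A} (hm : m ≠ ⊤) {O : Subring F}
    (h : IsLoc A m O) {a : F} (ha : a ∈ A) : a ∈ O :=
  (h a).2 ⟨⟨a, ha⟩, 1, fun h1 => hm ((Ideal.eq_top_iff_one m).2 h1), by simp⟩

theorem point_over {O : Subring F} (hO : O ∈ Points (charts k x)) (c : k) :
    algebraMap k F c ∈ O := by
  obtain ⟨A, _, m, hm, h⟩ := hO
  exact mem_of_isLoc hm.ne_top h (A.algebraMap_mem c)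

theorem curve_over {V : ValuationSubring F} (hV : V ∈ Curves (charts k x)) : Over k V := by
  obtain ⟨A, _, hA⟩ := hV
  exact fun c => hA.2.1 _ (A.algebraMap_mem c)

theorem gen_of_point (hx : ∀ i, x i ≠ 0) {O : Subring F} (hO : O ∈ Points (charts k x)) :
    ∃ i, Gen k x O (x i) := by
  obtain ⟨A, ⟨i, rfl⟩, m, hm, h⟩ := hO
  exact ⟨i, x_mem_span x i, hx i,
    fun j => mem_of_isLoc hm.ne_top h (Algebra.subset_adjoin ⟨j, rfl⟩)⟩

theorem gen_of_curve (hx : ∀ i, x i ≠ 0) {V : ValuationSubring F} (hV : V ∈ Curves (charts k x)) :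
    ∃ i, Gen k x V.toSubring (x i) := by
  obtain ⟨A, ⟨i, rfl⟩, h⟩ := hV
  exact ⟨i, x_mem_span x i, hx i, fun j => h.2.1 _ (Algebra.subset_adjoin ⟨j, rfl⟩)⟩

end

section

variable {k F : Type} [Field k] [Field F] [Algebra k F]

theorem isUnit_iff_inv {O : Subring F} (a : O) : IsUnit a ↔ (a : F) ≠ 0 ∧ (a : F)⁻¹ ∈ O := by
  constructor
  · intro h
    obtain ⟨b, hb⟩ := h.exists_right_inv
    have h1 : (a : F) * b = 1 := congrArg Subtype.val hb
    have h0 : (a : F) ≠ 0 := left_ne_zero_of_mul_eq_one h1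
    refine ⟨h0, ?_⟩
    rw [← eq_inv_of_mul_eq_one_right h1]
    exact b.2
  · rintro ⟨h0, h1⟩
    refine IsUnit.of_mul_eq_one ⟨(a : F)⁻¹, h1⟩ ?_
    exact Subtype.ext (mul_inv_cancel₀ h0)

/-- The inclusion of `A` in a subring. -/
def inclO {A : Subalgebra k F} {O : Subring F} (h : ∀ a ∈ A, a ∈ O) : A →+* O where
  toFun a := ⟨a, h a a.2⟩
  map_one' := rfl
  map_mul' _ _ := rfl
  map_zero' := rfl
  map_add' _ _ := rfl

theorem inclO_coe {A : Subalgebra k F} {O : Subring F} (h : ∀ a ∈ A, a ∈ O) (a : A) :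
    (inclO h a : F) = a := rfl

variable {A : Subalgebra k F} {P : Ideal A}

theorem le_locSub (P : Ideal A) [hP : P.IsPrime] : ∀ a ∈ A, a ∈ locSub A P := by
  intro a ha
  exact ⟨⟨a, ha⟩, 1, (Ideal.ne_top_iff_one P).1 hP.ne_top, by simp⟩

theorem isLocalization_locSub (P : Ideal A) [hP : P.IsPrime] :
    letI := (inclO (le_locSub P)).toAlgebra
    IsLocalization.AtPrime (locSub A P) P := by
  letI := (inclO (le_locSub P)).toAlgebra
  refine (isLocalization_iff _ _).2 ⟨?_, ?_, ?_⟩
  · rintro ⟨s, hs⟩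
    refine (isUnit_iff_inv _).2 ⟨coe_ne_zero_of_notMem hs, 1, s, hs, ?_⟩
    change (s : F)⁻¹ = _
    simp
  · rintro ⟨z, a, s, hs, rfl⟩
    refine ⟨(a, ⟨s, hs⟩), ?_⟩
    apply Subtype.ext
    change (a : F) / s * s = a
    have := coe_ne_zero_of_notMem hs
    field_simp
  · intro a b h
    refine ⟨1, ?_⟩
    have : (a : F) = b := congrArg (Subtype.val : locSub A P → F) h
    rw [Subtype.ext this]

theorem isLocalRing_locSub (P : Ideal A) [hP : P.IsPrime] : IsLocalRing (locSub A P) := by
  letI := (inclO (le_locSub P)).toAlgebra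
  haveI := isLocalization_locSub P
  exact IsLocalization.AtPrime.isLocalRing (locSub A P) P

/-- An element of `A` is a unit of the local ring iff it is not in the prime ideal. -/
theorem isUnit_locSub_iff (P : Ideal A) [hP : P.IsPrime] (a : A) :
    IsUnit (inclO (le_locSub P) a) ↔ a ∉ P := by
  letI := (inclO (le_locSub P)).toAlgebra
  haveI := isLocalization_locSub P
  exact IsLocalization.AtPrime.isUnit_to_map_iff (locSub A P) P a

theorem isLoc_iff {m : Ideal A} [hm : m.IsPrime] {O : Subring F} :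
    IsLoc A m O ↔ O = locSub A m := by
  constructor
  · intro h
    ext y
    exact h y
  · rintro rfl y
    exact Iff.rfl

variable {n : ℕ} {x : Fin (n + 1) → F}

/-- The local rings of two charts. -/
theorem transfer {v w : F} (hv : v ∈ Submodule.span k (Set.range x)) (hv0 : v ≠ 0)
    (hw : w ∈ Submodule.span k (Set.range x)) (hw0 : w ≠ 0) (Q : Ideal (chartOf k x w))
    [hQ : Q.IsPrime] (h : w / v ∈ locSub (chartOf k x w) Q) :
    ∃ P : Ideal (chartOf k x v), ∃ hP : P.IsPrime,
      locSub (chartOf k x v) P = locSub (chartOf k x w) Q ∧ (Q.IsMaximal → P.IsMaximal) := by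
  haveI := isLocalRing_locSub Q
  have hk : ∀ c : k, algebraMap k F c ∈ locSub (chartOf k x w) Q :=
    fun c => le_locSub Q _ ((chartOf k x w).algebraMap_mem c)
  have hgw : Gen k x (locSub (chartOf k x w) Q) w :=
    ⟨hw, hw0, fun j => le_locSub Q _ (Algebra.subset_adjoin ⟨j, rfl⟩)⟩
  have hgv : Gen k x (locSub (chartOf k x w) Q) v := hgw.of_div hv hv0 h
  have hle : ∀ a ∈ chartOf k x v, a ∈ locSub (chartOf k x w) Q := hgv.chart_le hk
  have hvw : v / w ∈ locSub (chartOf k x w) Q := hgw.lin hk hv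
  let P : Ideal (chartOf k x v) := (maximalIdeal (locSub (chartOf k x w) Q)).comap (inclO hle)
  have hP : P.IsPrime := inferInstance
  have hmem : ∀ a : chartOf k x v, a ∉ P ↔ IsUnit (inclO hle a) := by
    intro a
    rw [Ideal.mem_comap, mem_maximalIdeal, mem_nonunits_iff, not_not]
  refine ⟨P, hP, ?_, ?_⟩
  · apply le_antisymm
    · rintro y ⟨a, s, hs, rfl⟩
      have h1 := (isUnit_iff_inv _).1 ((hmem s).1 hs)
      rw [div_eq_mul_inv]
      exact Subring.mul_mem _ (hle a a.2) h1.2
    · rintro y ⟨⟨a, ha⟩, ⟨s, hs⟩, hs', rfl⟩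
      obtain ⟨m, a', ha', rfl⟩ := (mem_chartOf_iff hw hw0).1 ha
      obtain ⟨l, s', hs'', rfl⟩ := (mem_chartOf_iff hw hw0).1 hs
      have h1 : a' * w ^ l / v ^ (m + l) ∈ chartOf k x v :=
        div_mem_chartOf (mul_mem_hom ha' (pow_mem_hom' hw l))
      have h2 : s' * w ^ m / v ^ (l + m) ∈ chartOf k x v :=
        div_mem_chartOf (mul_mem_hom hs'' (pow_mem_hom' hw m))
      have h3 := (isUnit_iff_inv _).1 ((isUnit_locSub_iff Q ⟨_, hs⟩).2 hs')
      have h3a : s' / w ^ l ≠ 0 := h3.1
      have h3b : (s' / w ^ l)⁻¹ ∈ locSub (chartOf k x w) Q := h3.2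
      have hs0 : s' ≠ 0 := by
        rintro rfl
        exact h3a (zero_div _)
      refine ⟨⟨_, h1⟩, ⟨_, h2⟩, (hmem _).2 ((isUnit_iff_inv _).2 ⟨?_, ?_⟩), ?_⟩
      · exact div_ne_zero (mul_ne_zero hs0 (pow_ne_zero _ hw0)) (pow_ne_zero _ hv0)
      · change (s' * w ^ m / v ^ (l + m))⁻¹ ∈ _
        have : (s' * w ^ m / v ^ (l + m))⁻¹ = (s' / w ^ l)⁻¹ * (v / w) ^ (l + m) := by
          rw [div_pow, pow_add, pow_add]
          field_simp
        rw [this]
        exact Subring.mul_mem _ h3b (Subring.pow_mem _ hvw _)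
      · change a' / w ^ m / (s' / w ^ l) = a' * w ^ l / v ^ (m + l) / (s' * w ^ m / v ^ (l + m))
        rw [add_comm l m]
        field_simp
  · intro hQm
    let κ := ResidueField (locSub (chartOf k x w) Q)
    let fw : chartOf k x w →+* κ := (residue _).comp (inclO (le_locSub Q))
    let fv : chartOf k x v →+* κ := (residue _).comp (inclO hle)
    letI : Algebra k κ := (fw.comp (algebraMap k (chartOf k x w))).toAlgebra
    have hfin : Algebra.FiniteType k κ := by
      have h1 : Algebra.FiniteType k (chartOf k x w) := by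
        rw [← Subalgebra.fg_iff_finiteType]
        exact ⟨(Set.finite_range fun j => x j / w).toFinset, by simp [chartOf]⟩
      let g : chartOf k x w →ₐ[k] κ := { fw with commutes' := fun _ => rfl }
      have hg : Function.Surjective g := by
        letI := (inclO (le_locSub Q)).toAlgebra
        haveI := isLocalization_locSub Q
        intro c
        obtain ⟨z, rfl⟩ := Ideal.Quotient.mk_surjective c
        obtain ⟨a, s, hs, hz⟩ := z.2
        -- an inverse of s modulo Q
        have h2 : ∃ t : chartOf k x w, s * t - 1 ∈ Q := by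
          obtain ⟨t, i, hi, hti⟩ := Ideal.IsMaximal.exists_inv hQm hs
          refine ⟨t, ?_⟩
          have : s * t - 1 = - i := by linear_combination hti
          rw [this]
          exact Q.neg_mem hi
        obtain ⟨t, ht⟩ := h2
        refine ⟨a * t, ?_⟩
        change (residue _) (inclO (le_locSub Q) (a * t)) = residue _ z
        rw [← sub_eq_zero, ← map_sub, residue_eq_zero_iff]
        have h3 : inclO (le_locSub Q) (a * t) - z = z * inclO (le_locSub Q) (s * t - 1) := by
          apply Subtype.ext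
          have hs0 := coe_ne_zero_of_notMem hs
          change (a : F) * t - z = z * ((s : F) * t - 1)
          rw [hz]
          field_simp
        rw [h3]
        apply Ideal.mul_mem_left
        rw [mem_maximalIdeal, mem_nonunits_iff, isUnit_locSub_iff, not_not]
        exact ht
      exact Algebra.FiniteType.of_surjective g hg
    haveI : Module.Finite k κ := finite_of_finite_type_of_isJacobsonRing k κ
    letI : Algebra (chartOf k x v) κ := fv.toAlgebra
    haveI : IsScalarTower k (chartOf k x v) κ := IsScalarTower.of_algebraMap_eq fun c => rfl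
    haveI : Algebra.IsIntegral (chartOf k x v) κ := Algebra.IsIntegral.tower_top k
    have h4 := Ideal.isMaximal_comap_of_isIntegral_of_isMaximal (R := chartOf k x v) (⊥ : Ideal κ)
    have h5 : (⊥ : Ideal κ).comap (algebraMap (chartOf k x v) κ) = P := by
      ext a
      rw [Ideal.mem_comap, Ideal.mem_bot, Ideal.mem_comap]
      exact residue_eq_zero_iff _
    rwa [h5] at h4

theorem nonempty_locEquiv (P : Ideal A) [hP : P.IsPrime] :
    Nonempty (Localization.AtPrime P ≃+* locSub A P) := by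
  letI := (inclO (le_locSub P)).toAlgebra
  haveI := isLocalization_locSub P
  exact ⟨(IsLocalization.algEquiv P.primeCompl (Localization.AtPrime P) (locSub A P)).toRingEquiv⟩

theorem krullDim_locSub (P : Ideal A) [hP : P.IsPrime] :
    ringKrullDim (locSub A P) = P.height := by
  letI := (inclO (le_locSub P)).toAlgebra
  haveI := isLocalization_locSub P
  exact IsLocalization.AtPrime.ringKrullDim_eq_height P (locSub A P)

theorem exists_div_mem {w : F} (hw : w ∈ Submodule.span k (Set.range x)) (hw0 : w ≠ 0)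
    (Q : Ideal (chartOf k x w)) [hQ : Q.IsPrime] :
    ∃ i, w / x i ∈ locSub (chartOf k x w) Q := by
  by_contra hcon
  push Not at hcon
  have h1 : ∀ i, (⟨x i / w, Algebra.subset_adjoin ⟨i, rfl⟩⟩ : chartOf k x w) ∈ Q := by
    intro i
    by_contra h
    apply hcon i
    have h2 := (isUnit_iff_inv _).1 ((isUnit_locSub_iff Q _).2 h)
    have h3 : (x i / w)⁻¹ ∈ locSub (chartOf k x w) Q := h2.2
    rwa [inv_div] at h3
  have h2 : ∀ v (hv : v ∈ Submodule.span k (Set.range x)),
      ∃ h : v / w ∈ chartOf k x w, (⟨v / w, h⟩ : chartOf k x w) ∈ Q := by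
    intro v hv
    induction hv using Submodule.span_induction with
    | mem y hy =>
      obtain ⟨j, rfl⟩ := hy
      exact ⟨_, h1 j⟩
    | zero =>
      refine ⟨by rw [zero_div]; exact Subalgebra.zero_mem _, ?_⟩
      have : (⟨0 / w, by rw [zero_div]; exact Subalgebra.zero_mem _⟩ : chartOf k x w) = 0 :=
        Subtype.ext (zero_div w)
      rw [this]
      exact Q.zero_mem
    | add y z _ _ h1 h2 =>
      obtain ⟨h1, h1'⟩ := h1
      obtain ⟨h2, h2'⟩ := h2
      refine ⟨by rw [add_div]; exact Subalgebra.add_mem _ h1 h2, ?_⟩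
      have : (⟨(y + z) / w, by rw [add_div]; exact Subalgebra.add_mem _ h1 h2⟩ : chartOf k x w) =
          ⟨y / w, h1⟩ + ⟨z / w, h2⟩ := Subtype.ext (add_div y z w)
      rw [this]
      exact Q.add_mem h1' h2'
    | smul c y _ h1 =>
      obtain ⟨h1, h1'⟩ := h1
      refine ⟨by rw [smul_div_assoc]; exact Subalgebra.smul_mem _ h1 c, ?_⟩
      have : (⟨(c • y) / w, by rw [smul_div_assoc]; exact Subalgebra.smul_mem _ h1 c⟩ :
          chartOf k x w) = algebraMap k _ c * ⟨y / w, h1⟩ := by
        apply Subtype.ext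
        change (c • y) / w = algebraMap k F c * (y / w)
        rw [smul_div_assoc, Algebra.smul_def]
      rw [this]
      exact Q.mul_mem_left _ h1'
  obtain ⟨h3, h4⟩ := h2 w hw
  apply hQ.ne_top
  rw [Ideal.eq_top_iff_one]
  have : (1 : chartOf k x w) = ⟨w / w, h3⟩ := Subtype.ext (div_self hw0).symm
  rw [this]
  exact h4

theorem chartOf_fg (k : Type) {F : Type} [Field k] [Field F] [Algebra k F] {n : ℕ}
    (x : Fin (n + 1) → F) (w : F) : (chartOf k x w).FG :=
  ⟨(Set.finite_range fun j => x j / w).toFinset, by simp [chartOf]⟩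

theorem chartOf_frac (hx : ∀ i, x i ≠ 0) (hfr : IsFractionRing (chartOf k x (x 0)) F) {w : F}
    (hw : w ∈ Submodule.span k (Set.range x)) (hw0 : w ≠ 0) :
    IsFractionRing (chartOf k x w) F := by
  apply IsFractionRing.of_field
  intro z
  obtain ⟨a, b, hb, rfl⟩ := IsFractionRing.div_surjective (A := chartOf k x (x 0)) z
  obtain ⟨m, s, hs, ha'⟩ := (mem_chartOf_iff (x_mem_span x 0) (hx 0)).1 a.2
  obtain ⟨l, t, ht, hb'⟩ := (mem_chartOf_iff (x_mem_span x 0) (hx 0)).1 b.2
  have hb0 : (b : F) ≠ 0 := fun h => nonZeroDivisors.ne_zero hb (Subtype.ext h)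
  have ht0 : t ≠ 0 := by
    rintro rfl
    rw [zero_div] at hb'
    exact hb0 hb'
  have hx0 := hx 0
  refine ⟨⟨_, div_mem_chartOf (w := w) (mul_mem_hom hs (pow_mem_hom' (x_mem_span x 0) l))⟩,
    ⟨_, div_mem_chartOf (w := w) (mul_mem_hom ht (pow_mem_hom' (x_mem_span x 0) m))⟩, ?_⟩
  change (a : F) / b = s * x 0 ^ l / w ^ (m + l) / (t * x 0 ^ m / w ^ (l + m))
  rw [ha', hb', add_comm l m]
  field_simp

theorem chartOf_height (hx : ∀ i, x i ≠ 0)
    (hh : ∀ i, ∀ m : Ideal (chartOf k x (x i)), m.IsMaximal → m.height = 2) {w : F}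
    (hw : w ∈ Submodule.span k (Set.range x)) (hw0 : w ≠ 0) (Q : Ideal (chartOf k x w))
    (hQ : Q.IsMaximal) : Q.height = 2 := by
  haveI := hQ.isPrime
  obtain ⟨i, hi⟩ := exists_div_mem hw hw0 Q
  obtain ⟨P, hP, hPQ, hm⟩ := transfer (x_mem_span x i) (hx i) hw hw0 Q hi
  have h1 := hh i P (hm hQ)
  have h2 := krullDim_locSub P
  have h3 := krullDim_locSub Q
  rw [ringKrullDim_eq_of_ringEquiv (RingEquiv.subringCongr hPQ), h3] at h2
  rw [← h1]
  exact_mod_cast h2

/-- The local rings of the ring of functions on `w ≠ 0` are local rings of the charts. -/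
theorem chartOf_loc (hx : ∀ i, x i ≠ 0) {w : F}
    (hw : w ∈ Submodule.span k (Set.range x)) (hw0 : w ≠ 0) (Q : Ideal (chartOf k x w))
    [hQ : Q.IsPrime] : ∃ (i : Fin (n + 1)) (P : Ideal (chartOf k x (x i))) (_ : P.IsPrime),
      Nonempty (Localization.AtPrime P ≃+* Localization.AtPrime Q) := by
  obtain ⟨i, hi⟩ := exists_div_mem hw hw0 Q
  obtain ⟨P, hP, hPQ, -⟩ := transfer (x_mem_span x i) (hx i) hw hw0 Q hi
  obtain ⟨e⟩ := nonempty_locEquiv P
  obtain ⟨e'⟩ := nonempty_locEquiv Q
  exact ⟨i, P, hP, ⟨(e.trans (RingEquiv.subringCongr hPQ)).trans e'.symm⟩⟩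

/-- The ring of functions on `w ≠ 0` is a chart. -/
theorem chart_chartOf (hS : Surf k x) {w : F} (hw : w ∈ Submodule.span k (Set.range x))
    (hw0 : w ≠ 0) : Chart (chartOf k x w) := by
  have hfg := chartOf_fg k x w
  haveI : Algebra.FiniteType k (chartOf k x w) := by
    rw [← Subalgebra.fg_iff_finiteType]
    exact hfg
  haveI : IsNoetherianRing (chartOf k x w) := Algebra.FiniteType.isNoetherianRing k _
  refine ⟨hfg, chartOf_frac hS.ne (hS.chart 0).frac hw hw0, ?_,
    chartOf_height hS.ne (fun i => (hS.chart i).height) hw hw0⟩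
  rw [isRegularRing_iff]
  intro Q hQ
  obtain ⟨i, P, hP, ⟨e⟩⟩ := chartOf_loc hS.ne hw hw0 Q
  have hch : Chart (chartOf k x (x i)) := hS.chart i
  haveI := hch.regular
  haveI : IsRegularLocalRing (Localization.AtPrime P) :=
    IsRegularRing.isRegularLocalRing_localization (R := chartOf k x (x i)) P
  exact IsRegularLocalRing.of_ringEquiv e

/-- The ring of functions on `w ≠ 0` is integrally closed if the charts are. -/
theorem chartOf_normal (hx : ∀ i, x i ≠ 0)
    (hn : ∀ i, IsIntegrallyClosed (chartOf k x (x i))) {w : F}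
    (hw : w ∈ Submodule.span k (Set.range x)) (hw0 : w ≠ 0) :
    IsIntegrallyClosed (chartOf k x w) := by
  refine IsIntegrallyClosed.of_localization_maximal fun Q _ hQ => ?_
  obtain ⟨i, P, hP, ⟨e⟩⟩ := chartOf_loc hx hw hw0 Q
  haveI := hn i
  haveI : IsIntegrallyClosed (Localization.AtPrime P) :=
    isIntegrallyClosed_of_isLocalization _ P.primeCompl P.primeCompl_le_nonZeroDivisors
  exact IsIntegrallyClosed.of_equiv e

theorem exists_isLoc (hx : ∀ i, x i ≠ 0) {O : Subring F} (hO : O ∈ Points (charts k x)) {w : F}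
    (h : Gen k x O w) : ∃ m : Ideal (chartOf k x w), m.IsMaximal ∧ IsLoc (chartOf k x w) m O := by
  have hk := point_over hO
  obtain ⟨A, ⟨i, hA⟩, Q, hQ, hQO⟩ := hO
  have hA' : chartOf k x (x i) = A := hA
  subst hA'
  haveI := hQ.isPrime
  have h1 : O = locSub (chartOf k x (x i)) Q := isLoc_iff.1 hQO
  have h2 : x i / w ∈ locSub (chartOf k x (x i)) Q := by
    rw [← h1]
    exact h.le i
  obtain ⟨P, hP, hPQ, hm⟩ := transfer h.mem h.ne (x_mem_span x i) (hx i) Q h2
  exact ⟨P, hm hQ, isLoc_iff.2 (h1.trans hPQ.symm)⟩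

theorem point_of_isLoc (hx : ∀ i, x i ≠ 0) {w : F} (hw : w ∈ Submodule.span k (Set.range x))
    (hw0 : w ≠ 0) {m : Ideal (chartOf k x w)} (hm : m.IsMaximal) {O : Subring F}
    (hO : IsLoc (chartOf k x w) m O) : O ∈ Points (charts k x) ∧ Gen k x O w := by
  haveI := hm.isPrime
  have h1 : O = locSub (chartOf k x w) m := isLoc_iff.1 hO
  refine ⟨?_, hw, hw0, fun j => mem_of_isLoc hm.ne_top hO (Algebra.subset_adjoin ⟨j, rfl⟩)⟩
  obtain ⟨i, hi⟩ := exists_div_mem hw hw0 m
  obtain ⟨P, hP, hPQ, hPm⟩ := transfer (x_mem_span x i) (hx i) hw hw0 m hi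
  exact ⟨chartOf k x (x i), ⟨i, rfl⟩, P, hPm hm, isLoc_iff.2 (h1.trans hPQ.symm)⟩

theorem exists_point (hx : ∀ i, x i ≠ 0) {w : F} (hw : w ∈ Submodule.span k (Set.range x))
    (hw0 : w ≠ 0) {m : Ideal (chartOf k x w)} (hm : m.IsMaximal) :
    ∃ O ∈ Points (charts k x), Gen k x O w ∧ IsLoc (chartOf k x w) m O := by
  haveI := hm.isPrime
  have h1 : IsLoc (chartOf k x w) m (locSub (chartOf k x w) m) := isLoc_iff.2 rfl
  obtain ⟨h2, h3⟩ := point_of_isLoc hx hw hw0 hm h1
  exact ⟨_, h2, h3, h1⟩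

theorem isCurve_change {v w : F} (hv : v ∈ Submodule.span k (Set.range x)) (hv0 : v ≠ 0)
    (hw : w ∈ Submodule.span k (Set.range x)) (hw0 : w ≠ 0) {V : ValuationSubring F}
    (hV : IsCurve (chartOf k x w) V) (h : w / v ∈ V) : IsCurve (chartOf k x v) V := by
  have hk : ∀ c : k, algebraMap k F c ∈ V.toSubring :=
    fun c => hV.2.1 _ ((chartOf k x w).algebraMap_mem c)
  have hgw : Gen k x V.toSubring w :=
    ⟨hw, hw0, fun j => hV.2.1 _ (Algebra.subset_adjoin ⟨j, rfl⟩)⟩
  have hgv : Gen k x V.toSubring v := hgw.of_div hv hv0 h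
  have hvw : v / w ∈ V := hgw.lin hk hv
  have h1 : V.valuation (w / v) = 1 := by
    apply le_antisymm ((V.valuation_le_one_iff _).2 h)
    have h2 := (V.valuation_le_one_iff _).2 hvw
    have h3 : V.valuation (w / v) * V.valuation (v / w) = 1 := by
      rw [← map_mul, div_mul_div_cancel₀ hv0, div_self hw0, map_one]
    calc (1 : V.ValueGroup) = V.valuation (w / v) * V.valuation (v / w) := h3.symm
      _ ≤ V.valuation (w / v) * 1 := by gcongr
      _ = V.valuation (w / v) := mul_one _
  refine ⟨hV.1, hgv.chart_le hk, ?_⟩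
  intro y hy
  obtain ⟨a, s, ha, hs, hs1, rfl⟩ := hV.2.2 y hy
  obtain ⟨m, a', ha', rfl⟩ := (mem_chartOf_iff hw hw0).1 ha
  obtain ⟨l, s', hs', rfl⟩ := (mem_chartOf_iff hw hw0).1 hs
  refine ⟨a' * w ^ l / v ^ (m + l), s' * w ^ m / v ^ (l + m),
    div_mem_chartOf (mul_mem_hom ha' (pow_mem_hom' hw l)),
    div_mem_chartOf (mul_mem_hom hs' (pow_mem_hom' hw m)), ?_, ?_⟩
  · have : s' * w ^ m / v ^ (l + m) = s' / w ^ l * (w / v) ^ (l + m) := by
      rw [div_pow, pow_add, pow_add]
      field_simp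
    rw [this, map_mul, hs1, map_pow, h1, one_pow, one_mul]
  · have hs0 : s' ≠ 0 := by
      rintro rfl
      rw [zero_div, map_zero] at hs1
      exact zero_ne_one hs1
    rw [add_comm l m]
    field_simp

theorem curve_iff (hx : ∀ i, x i ≠ 0) {w : F} (hw : w ∈ Submodule.span k (Set.range x))
    (hw0 : w ≠ 0) {V : ValuationSubring F} :
    IsCurve (chartOf k x w) V ↔ V ∈ Curves (charts k x) ∧ Gen k x V.toSubring w := by
  constructor
  · intro hV
    have hk : ∀ c : k, algebraMap k F c ∈ V.toSubring :=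
      fun c => hV.2.1 _ ((chartOf k x w).algebraMap_mem c)
    have hgw : Gen k x V.toSubring w :=
      ⟨hw, hw0, fun j => hV.2.1 _ (Algebra.subset_adjoin ⟨j, rfl⟩)⟩
    refine ⟨?_, hgw⟩
    obtain ⟨Q, hQ, hQV⟩ := exists_primeOf hV.2.1
    obtain ⟨i, hi⟩ := exists_div_mem hw hw0 Q
    have h1 : w / x i ∈ V := by
      obtain ⟨a, s, hs, h2⟩ := hi
      rw [h2]
      have h3 := (hQV.val_one hV.2.1 s).1 hs
      rw [← V.valuation_le_one_iff, map_div₀, h3, div_one, V.valuation_le_one_iff]
      exact hV.2.1 a a.2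
    exact ⟨_, ⟨i, rfl⟩, isCurve_change (x_mem_span x i) (hx i) hw hw0 hV h1⟩
  · rintro ⟨⟨A, ⟨i, rfl⟩, hA⟩, h⟩
    exact isCurve_change hw hw0 (x_mem_span x i) (hx i) hA (h.le i)

end

end Pool.Agent.Lib.MP_b197b4_ntK
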