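import Mathlib
import Pool.Agent.Lib.MP_b197b4_ntG.Gen

/-!
# MP_b197b4_nt, project K1: interpolation

Forms of large degree which vanish on finitely many given curves and have prescribed values modulo
powers of the maximal ideals of finitely many closed points.
-/

set_option autoImplicit false

namespace Pool.Agent.Lib.MP_b197b4_ntK

open IsLocalRing

namespace Interp

section fin

variable {k : Type} [Field k]

theorem finite_quot_pow {A : Type} [CommRing A] [Algebra k A] [Algebra.FiniteType k A]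
    (m : Ideal A) [hm : m.IsMaximal] (N : ℕ) : Module.Finite k (A ⧸ m ^ N) := by
  rw [Module.finite_iff_krullDimLE_zero, Ring.krullDimLE_zero_iff]
  intro P hP
  have hc : (P.comap (Ideal.Quotient.mk (m ^ N))).IsPrime := hP.comap _
  have h1 : m ≤ P.comap (Ideal.Quotient.mk (m ^ N)) := by
    have h2 : m ^ N ≤ P.comap (Ideal.Quotient.mk (m ^ N)) := by
      intro a ha
      rw [Ideal.mem_comap, Ideal.Quotient.eq_zero_iff_mem.2 ha]
      exact P.zero_mem
    exact hc.le_of_pow_le h2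
  have h2 : P.comap (Ideal.Quotient.mk (m ^ N)) = m := (hm.eq_of_le hc.ne_top h1).symm
  have h3 : P = m.map (Ideal.Quotient.mk (m ^ N)) := by
    calc P = (P.comap (Ideal.Quotient.mk (m ^ N))).map (Ideal.Quotient.mk (m ^ N)) :=
          (Ideal.map_comap_of_surjective _ Ideal.Quotient.mk_surjective P).symm
      _ = m.map (Ideal.Quotient.mk (m ^ N)) := by rw [h2]
  have h4 := m.map_eq_top_or_isMaximal_of_surjective (Ideal.Quotient.mk (m ^ N))
    Ideal.Quotient.mk_surjective hm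
  rw [h3]
  refine h4.resolve_left fun h5 => ?_
  rw [← h3] at h5
  exact hP.ne_top h5

/-- The images of an increasing family of subspaces with union `I` in a finite product of the
`A / m i ^ N` are eventually the image of `I`. -/
theorem exists_bound {A : Type} [CommRing A] [Algebra k A] [Algebra.FiniteType k A]
    {ι : Type} [Finite ι] (m : ι → Ideal A) (hm : ∀ i, (m i).IsMaximal) (N : ℕ)
    (W : ℕ → Submodule k A) (hW : Monotone W) :
    ∃ M₀ : ℕ, ∀ M ≥ M₀, ∀ M' : ℕ, ∀ r ∈ W M', ∃ b ∈ W M, ∀ i, b - r ∈ m i ^ N := by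
  have hfin : ∀ i, Module.Finite k (A ⧸ m i ^ N) := fun i => by
    have := hm i
    exact finite_quot_pow (m i) N
  let π : A →ₗ[k] ((i : ι) → A ⧸ m i ^ N) :=
    LinearMap.pi fun i => (Ideal.Quotient.mkₐ k (m i ^ N)).toLinearMap
  have hπ : ∀ a b, π a = π b → ∀ i, a - b ∈ m i ^ N := fun a b h i =>
    Ideal.Quotient.eq.1 (congrFun h i)
  let f : ℕ →o Submodule k ((i : ι) → A ⧸ m i ^ N) :=
    { toFun := fun M => (W M).map π
      monotone' := fun M M' hM => Submodule.map_mono (hW hM) }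
  obtain ⟨M₀, hM₀⟩ := monotone_stabilizes_iff_noetherian.2
    (inferInstance : IsNoetherian k ((i : ι) → A ⧸ m i ^ N)) f
  refine ⟨M₀, fun M hM M' r hr => ?_⟩
  have h1 : π r ∈ f (max M₀ M') := ⟨r, hW (le_max_right _ _) hr, rfl⟩
  rw [← hM₀ _ (le_max_left _ _), hM₀ _ hM] at h1
  obtain ⟨b, hb, hbr⟩ := h1
  exact ⟨b, hb, hπ b r hbr⟩

end fin

section loc

variable {k : Type} {F : Type} [Field k] [Field F] [Algebra k F] {A : Subalgebra k F} {m : Ideal A}
  {O : Subring F}

theorem coe_ne {s : A} (hs : s ∉ m) : (s : F) ≠ 0 := by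
  intro h
  have : s = 0 := Subtype.ext h
  exact hs (this ▸ m.zero_mem)

theorem le_of_isLoc (h : IsLoc A m O) (hm : m ≠ ⊤) : ∀ a ∈ A, a ∈ O := fun a ha =>
  (h a).2 ⟨⟨a, ha⟩, 1, fun h1 => hm ((Ideal.eq_top_iff_one m).2 h1), by simp⟩

theorem inv_mem (h : IsLoc A m O) {s : A} (hs : s ∉ m) : (s : F)⁻¹ ∈ O :=
  (h _).2 ⟨1, s, hs, by simp⟩

/-- The elements of `m` have no inverse in `O`. -/
theorem notMem_of_inv (h : IsLoc A m O) {s : A} (hs0 : (s : F) ≠ 0)
    (hs : (s : F)⁻¹ ∈ O) : s ∉ m := by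
  intro hsm
  obtain ⟨a, t, ht, e⟩ := (h _).1 hs
  have ht0 := coe_ne ht
  have h1 : t = s * a := by
    apply Subtype.ext
    push_cast
    rw [inv_eq_iff_eq_inv, inv_div] at e
    have ha0 : (a : F) ≠ 0 := by
      intro h0
      rw [h0, div_zero] at e
      exact hs0 e
    rw [e, div_mul_cancel₀ _ ha0]
  exact ht (h1 ▸ m.mul_mem_right a hsm)

/-- The local ring is local. -/
theorem isLocalRing (h : IsLoc A m O) (hm : m.IsPrime) : IsLocalRing O := by
  have h1 := isLoc_iff.1 h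
  subst h1
  exact isLocalRing_locSub m

theorem incl_mem (h : IsLoc A m O) (hA : ∀ a ∈ A, a ∈ O) [IsLocalRing O] (N : ℕ)
    {a : A} (ha : a ∈ m ^ N) : inclO hA a ∈ maximalIdeal O ^ N := by
  have h1 : m.map (inclO hA) ≤ maximalIdeal O := by
    rw [Ideal.map_le_iff_le_comap]
    intro b hb
    rw [Ideal.mem_comap, mem_maximalIdeal, mem_nonunits_iff, isUnit_iff_inv]
    rintro ⟨h2, h3⟩
    exact notMem_of_inv h h2 h3 hb
  have h2 : (m ^ N).map (inclO hA) ≤ maximalIdeal O ^ N := by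
    rw [Ideal.map_pow]
    exact Ideal.pow_right_mono h1 N
  exact h2 (Ideal.mem_map_of_mem _ ha)

theorem exists_inv_mod (hm : m.IsMaximal) (N : ℕ) {s : A} (hs : s ∉ m) :
    ∃ t : A, t * s - 1 ∈ m ^ N := by
  obtain ⟨y, i, hi, hyi⟩ := hm.exists_inv hs
  have h1 : IsCoprime (Ideal.span {s}) m :=
    Ideal.isCoprime_iff_exists.2
      ⟨y * s, Ideal.mul_mem_left _ _ (Ideal.mem_span_singleton_self s), i, hi, hyi⟩
  obtain ⟨a, ha, b, hb, hab⟩ := Ideal.isCoprime_iff_exists.1 (h1.pow_right (n := N))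
  obtain ⟨t, rfl⟩ := Ideal.mem_span_singleton'.1 ha
  refine ⟨t, ?_⟩
  have : t * s - 1 = -b := by linear_combination hab
  rw [this]
  exact neg_mem hb

/-- An element of `I` with the class of `z = a / s`, `a ∈ I`. -/
theorem exists_approx (h : IsLoc A m O) (hm : m.IsMaximal) (hA : ∀ a ∈ A, a ∈ O) [IsLocalRing O]
    (N : ℕ) (I : Ideal A) {a s : A} (ha : a ∈ I) (hs : s ∉ m) :
    ∃ b ∈ I, ∃ y : O, y ∈ maximalIdeal O ^ N ∧ (b : F) - a / s = y := by
  have hs0 := coe_ne hs
  obtain ⟨t, ht⟩ := exists_inv_mod hm N hs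
  refine ⟨a * t, I.mul_mem_right _ ha, inclO hA (a * (t * s - 1)) * ⟨(s : F)⁻¹, inv_mem h hs⟩,
    Ideal.mul_mem_right _ _ (incl_mem h hA N (Ideal.mul_mem_left _ _ ht)), ?_⟩
  push_cast
  rw [inclO_coe]
  push_cast
  field_simp

end loc

section chart

variable {k : Type} {F : Type} [Field k] [Field F] [Algebra k F] {n : ℕ} {x : Fin (n + 1) → F}
  {w : F}

/-- The forms of degree `M` divided by `w ^ M`. -/
def homDiv (k : Type) {F : Type} [Field k] [Field F] [Algebra k F] {n : ℕ} (x : Fin (n + 1) → F)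
    (w : F) (M : ℕ) : Submodule k (chartOf k x w) where
  carrier := {a | (a : F) * w ^ M ∈ hom k x M}
  add_mem' := by
    intro a b ha hb
    change ((a : F) + (b : F)) * w ^ M ∈ hom k x M
    rw [add_mul]
    exact add_mem ha hb
  zero_mem' := by
    change (0 : F) * w ^ M ∈ hom k x M
    rw [zero_mul]
    exact zero_mem _
  smul_mem' := by
    intro c a ha
    change (c • (a : F)) * w ^ M ∈ hom k x M
    rw [smul_mul_assoc]
    exact Submodule.smul_mem _ c ha

theorem mem_homDiv {M : ℕ} {a : chartOf k x w} : a ∈ homDiv k x w M ↔ (a : F) * w ^ M ∈ hom k x M :=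
  Iff.rfl

theorem homDiv_mono (hw : w ∈ Submodule.span k (Set.range x)) : Monotone (homDiv k x w) := by
  intro M M' hM a ha
  obtain ⟨c, rfl⟩ := Nat.exists_eq_add_of_le hM
  rw [mem_homDiv] at *
  rw [pow_add, ← mul_assoc]
  exact mul_mem_hom ha (pow_mem_hom' hw c)

theorem exists_mem_homDiv (hw : w ∈ Submodule.span k (Set.range x)) (hw0 : w ≠ 0)
    (a : chartOf k x w) : ∃ M, a ∈ homDiv k x w M := by
  obtain ⟨M, hM⟩ := exists_common hw hw0 a.2
  exact ⟨M, hM M le_rfl⟩

/-- A point with the generator `w` is a closed point of the chart `w ≠ 0`. -/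
theorem exists_loc (hx : ∀ i, x i ≠ 0) {O : Subring F} (hO : O ∈ Points (charts k x))
    (h : Gen k x O w) : ∃ m : Ideal (chartOf k x w), m.IsMaximal ∧ IsLoc (chartOf k x w) m O := by
  obtain ⟨A, ⟨i, hA⟩, Q, hQ, hQO⟩ := hO
  have hA' : chartOf k x (x i) = A := hA
  subst hA'
  have hQp := hQ.isPrime
  have h1 : O = locSub (chartOf k x (x i)) Q := isLoc_iff.1 hQO
  have h2 : x i / w ∈ locSub (chartOf k x (x i)) Q := by
    rw [← h1]
    exact h.le i
  obtain ⟨P, hP, hPQ, hm⟩ := transfer h.mem h.ne (x_mem_span x i) (hx i) Q h2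
  exact ⟨P, hm hQ, isLoc_iff.2 (h1.trans hPQ.symm)⟩

/-- Interpolation in an ideal of the chart. -/
theorem interp_ideal (hw : w ∈ Submodule.span k (Set.range x)) (hw0 : w ≠ 0)
    {T : Set (Subring F)} (hTf : T.Finite)
    (hT : ∀ O ∈ T, ∃ m : Ideal (chartOf k x w), m.IsMaximal ∧ IsLoc (chartOf k x w) m O)
    (I : Ideal (chartOf k x w)) (N : ℕ) :
    ∃ M₀ : ℕ, ∀ M ≥ M₀, ∀ c : Subring F → F,
      (∀ O ∈ T, ∃ a s : chartOf k x w, a ∈ I ∧ (s : F) ≠ 0 ∧ (s : F)⁻¹ ∈ O ∧ c O = a / s) →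
      ∃ b : chartOf k x w, b ∈ I ∧ (b : F) * w ^ M ∈ hom k x M ∧ ∀ O ∈ T, ∀ _ : IsLocalRing O,
        ∃ y : O, y ∈ maximalIdeal O ^ N ∧ (b : F) - c O = y := by
  classical
  have hfin : Finite T := hTf
  choose m hm hloc using fun O : T => hT O.1 O.2
  have hft : Algebra.FiniteType k (chartOf k x w) :=
    (chartOf k x w).fg_iff_finiteType.1
      ⟨(Set.finite_range fun j => x j / w).toFinset, by simp [chartOf]⟩
  obtain ⟨M₀, hM₀⟩ := exists_bound m hm N (fun M => homDiv k x w M ⊓ I.restrictScalars k)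
    (fun M M' h => inf_le_inf_right _ (homDiv_mono hw h))
  refine ⟨M₀, fun M hM c hc => ?_⟩
  have hA : ∀ O : T, ∀ a ∈ chartOf k x w, a ∈ O.1 := fun O => le_of_isLoc (hloc O) (hm O).ne_top
  -- elements of `I` with the right classes
  have hap : ∀ O : T, ∃ b ∈ I, ∀ _ : IsLocalRing O.1, ∃ y : O.1,
      y ∈ maximalIdeal O.1 ^ N ∧ ((b : chartOf k x w) : F) - c O.1 = y := by
    intro O
    obtain ⟨a, s, ha, hs0, hs, e⟩ := hc O.1 O.2
    have hlr := isLocalRing (hloc O) (hm O).isPrime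
    obtain ⟨b, hb, y, hy, e2⟩ := exists_approx (hloc O) (hm O) (hA O) N I ha
      (notMem_of_inv (hloc O) hs0 hs)
    exact ⟨b, hb, fun _ => ⟨y, hy, by rw [e, e2]⟩⟩
  choose a haI hap using hap
  have hcop : Pairwise (Function.onFun IsCoprime fun O : T => m O ^ N) := by
    intro O O' hne
    have h1 := hm O
    have h2 := hm O'
    refine (Ideal.isCoprime_of_isMaximal ?_).pow
    intro he
    apply hne
    apply Subtype.ext
    have h3 := hloc O
    rw [he] at h3
    ext z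
    rw [h3 z, hloc O' z]
  -- idempotents
  have hid : ∀ O : T, ∃ e : chartOf k x w, ∀ O' : T, e - (if O' = O then 1 else 0) ∈ m O' ^ N :=
    fun O => Ideal.exists_forall_sub_mem_ideal hcop fun O' => if O' = O then 1 else 0
  choose e he using hid
  have hF : Fintype T := Fintype.ofFinite T
  have hr : ∀ O : T, (∑ O', e O' * a O') - a O ∈ m O ^ N := by
    intro O
    have h1 : (∑ O', e O' * a O') - a O = ∑ O', (e O' - if O = O' then 1 else 0) * a O' := by
      simp only [sub_mul, Finset.sum_sub_distrib, ite_mul, one_mul, zero_mul, Finset.sum_ite_eq,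
        Finset.mem_univ, if_true]
    rw [h1]
    exact sum_mem fun O' _ => Ideal.mul_mem_right _ _ (he O' O)
  have hrI : (∑ O', e O' * a O') ∈ I := sum_mem fun O' _ => I.mul_mem_left _ (haI O')
  obtain ⟨M', hM'⟩ := exists_mem_homDiv hw hw0 (∑ O', e O' * a O')
  obtain ⟨b, hb, hb2⟩ := hM₀ M hM M' _ ⟨hM', hrI⟩
  refine ⟨b, hb.2, hb.1, fun O hO hlr => ?_⟩
  obtain ⟨y, hy, e2⟩ := hap ⟨O, hO⟩ hlr
  have h4 : b - a ⟨O, hO⟩ ∈ m ⟨O, hO⟩ ^ N := by
    have h5 := add_mem (hb2 ⟨O, hO⟩) (hr ⟨O, hO⟩)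
    rwa [sub_add_sub_cancel] at h5
  refine ⟨inclO (hA ⟨O, hO⟩) (b - a ⟨O, hO⟩) + y,
    add_mem (incl_mem (hloc ⟨O, hO⟩) (hA ⟨O, hO⟩) N h4) hy, ?_⟩
  push_cast
  rw [inclO_coe, ← e2]
  push_cast
  ring

end chart

section van

variable {k : Type} {F : Type} [Field k] [Field F] [Algebra k F]

/-- The functions in `A` which vanish on the curves in `C` which meet `Spec A`. -/
def vanIdeal (A : Subalgebra k F) (C : Set (ValuationSubring F)) : Ideal A where
  carrier := {a | ∀ V ∈ C, (∀ b ∈ A, b ∈ V) → V.valuation (a : F) < 1}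
  add_mem' := by
    intro a b ha hb V hV hA
    exact lt_of_le_of_lt (V.valuation.map_add _ _) (max_lt (ha V hV hA) (hb V hV hA))
  zero_mem' := by
    intro V _ _
    change V.valuation (0 : F) < 1
    rw [map_zero]
    exact zero_lt_one
  smul_mem' := by
    intro c a ha V hV hA
    change V.valuation ((c : F) * (a : F)) < 1
    rw [map_mul]
    exact lt_of_le_of_lt (mul_le_of_le_one_left' ((V.valuation_le_one_iff _).2 (hA c c.2)))
      (ha V hV hA)

theorem mem_vanIdeal {A : Subalgebra k F} {C : Set (ValuationSubring F)} {a : A} :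
    a ∈ vanIdeal A C ↔ ∀ V ∈ C, (∀ b ∈ A, b ∈ V) → V.valuation (a : F) < 1 := Iff.rfl

theorem val_eq_one {V : ValuationSubring F} {s : F} (hs : s ∈ V) (hs0 : s ≠ 0) (hs' : s⁻¹ ∈ V) :
    V.valuation s = 1 := by
  apply le_antisymm ((V.valuation_le_one_iff _).2 hs)
  by_contra hcon
  push Not at hcon
  have h1 := (V.valuation_le_one_iff _).2 hs'
  have h2 : V.valuation s * V.valuation s⁻¹ = 1 := by
    rw [← map_mul, mul_inv_cancel₀ hs0, map_one]
  have h3 : V.valuation s * V.valuation s⁻¹ < 1 :=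
    lt_of_le_of_lt (mul_le_of_le_one_right' h1) hcon
  exact h3.ne h2

/-- A function in `O` which vanishes on the curves of `C` through `O` has a numerator which
vanishes on all curves of `C`. -/
theorem exists_van {A : Subalgebra k F} {m : Ideal A} (hm : m.IsMaximal) {O : Subring F}
    (h : IsLoc A m O) {C : Set (ValuationSubring F)} (hC : C.Finite) {c : F} (hc : c ∈ O)
    (hcC : ∀ V ∈ C, (O : Set F) ⊆ V → V.valuation c < 1) :
    ∃ a s : A, a ∈ vanIdeal A C ∧ s ∉ m ∧ c = a / s := by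
  induction C, hC using Set.Finite.induction_on with
  | empty =>
    obtain ⟨a, s, hs, e⟩ := (h c).1 hc
    exact ⟨a, s, fun V hV => hV.elim, hs, e⟩
  | @insert V C hV hCf ih =>
    obtain ⟨a, s, ha, hs, e⟩ := ih fun V' hV' => hcC V' (Or.inr hV')
    have hs0 := coe_ne hs
    by_cases hAV : ∀ b ∈ A, b ∈ V
    · by_cases hOV : (O : Set F) ⊆ V
      · refine ⟨a, s, ?_, hs, e⟩
        rintro V' (rfl | hV') hA
        · have h1 := hcC V' (Or.inl rfl) hOV
          have h2 : (a : F) = c * s := by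
            rw [e, div_mul_cancel₀ _ hs0]
          have h3 : V'.valuation (s : F) = 1 := val_eq_one (hA s s.2) hs0 (hOV (inv_mem h hs))
          rw [h2, map_mul, h3, mul_one]
          exact h1
        · exact ha V' hV' hA
      · obtain ⟨t, ht, htV⟩ : ∃ t : A, t ∉ m ∧ V.valuation (t : F) < 1 := by
          by_contra hcon
          push Not at hcon
          apply hOV
          intro z hz
          obtain ⟨b, t, ht, rfl⟩ := (h z).1 hz
          have h1 : V.valuation (t : F) = 1 :=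
            le_antisymm ((V.valuation_le_one_iff _).2 (hAV t t.2)) (hcon t ht)
          change (b : F) / t ∈ V
          rw [← V.valuation_le_one_iff, map_div₀, h1, div_one, V.valuation_le_one_iff]
          exact hAV b b.2
        have ht0 := coe_ne ht
        refine ⟨a * t, s * t, ?_, fun h1 => (hm.isPrime.mem_or_mem h1).elim hs ht, ?_⟩
        · rintro V' (rfl | hV') hA
          · push_cast
            rw [map_mul]
            exact lt_of_le_of_lt (mul_le_of_le_one_left' ((V'.valuation_le_one_iff _).2 (hA a a.2)))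
              htV
          · push_cast
            rw [map_mul]
            exact lt_of_le_of_lt (mul_le_of_le_one_right' ((V'.valuation_le_one_iff _).2 (hA t t.2)))
              (ha V' hV' hA)
        · push_cast
          rw [e, mul_div_mul_right _ _ ht0]
    · refine ⟨a, s, ?_, hs, e⟩
      rintro V' (rfl | hV') hA
      · exact (hAV hA).elim
      · exact ha V' hV' hA

end van

end Interp

section

variable {k : Type} {F : Type} [Field k] [Field F] [Algebra k F] {n : ℕ} {x : Fin (n + 1) → F}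
  {w : F}

/-- A linear form `w` vanishes on the curves which do not meet the chart `w ≠ 0`. -/
theorem Interp.vh_pos (hx : ∀ i, x i ≠ 0) (hw : w ∈ Submodule.span k (Set.range x)) (hw0 : w ≠ 0)
    {V : ValuationSubring F} (hV : IsDiscreteValuationRing V) (hk : Over k V)
    (hA : ¬ ∀ b ∈ chartOf k x w, b ∈ V) : 0 < vh x V 1 w := by
  have h0 : 0 ≤ vh x V ((1 : ℕ) : ℤ) w := vh_nonneg hV hk hx (mem_hom_one.2 hw) hw0
  rw [Nat.cast_one] at h0
  refine lt_of_le_of_ne h0 fun h1 => hA ?_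
  have h2 : ord V w = ord V (x (idx x V)) := by
    unfold vh at h1
    omega
  have h3 : Gen k x V.toSubring w := ⟨hw, hw0, fun j => by
    change x j / w ∈ V
    rw [← ord_nonneg_iff hV (div_ne_zero (hx j) hw0), ord_div hV (hx j) hw0, h2]
    have := idx_le x V j
    omega⟩
  exact h3.chart_le hk

/-- **Interpolation.** Let `w` be a linear form which does not vanish at the points of the finite
set `T`. For all `M ≥ M₀`: every family of `c O ∈ O`, `O ∈ T`, which vanish on the curves of the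
finite set `C` through `O`, is congruent, modulo the `N`-th powers of the maximal ideals, to
`q / w ^ M` for a form `q` of degree `M` which vanishes on all curves of `C`. -/
theorem interp_curves (hx : ∀ i, x i ≠ 0) (hw : w ∈ Submodule.span k (Set.range x)) (hw0 : w ≠ 0)
    {T : Set (Subring F)} (hTf : T.Finite) (hT : ∀ O ∈ T, O ∈ Points (charts k x) ∧ Gen k x O w)
    {C : Set (ValuationSubring F)} (hCf : C.Finite)
    (hC : ∀ V ∈ C, IsDiscreteValuationRing V ∧ Over k V) (N : ℕ) :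
    ∃ M₀ : ℕ, ∀ M ≥ M₀, ∀ c : Subring F → F,
      (∀ O ∈ T, c O ∈ O ∧ ∀ V ∈ C, (O : Set F) ⊆ V → V.valuation (c O) < 1) →
      ∃ q ∈ hom k x M, (∀ V ∈ C, q ≠ 0 → 0 < vh x V M q) ∧
        ∀ O ∈ T, ∀ _ : IsLocalRing O,
          ∃ y : O, y ∈ maximalIdeal O ^ N ∧ q / w ^ M - c O = y := by
  have hT' : ∀ O ∈ T, ∃ m : Ideal (chartOf k x w), m.IsMaximal ∧ IsLoc (chartOf k x w) m O :=
    fun O hO => Interp.exists_loc hx (hT O hO).1 (hT O hO).2
  obtain ⟨M₀, hM₀⟩ := Interp.interp_ideal hw hw0 hTf hT' (Interp.vanIdeal (chartOf k x w) C) N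
  refine ⟨M₀ + 1, fun M hM c hc => ?_⟩
  obtain ⟨M, rfl⟩ : ∃ M', M = M' + 1 := ⟨M - 1, by omega⟩
  obtain ⟨b, hbI, hb, hbT⟩ := hM₀ M (by omega) c (by
    intro O hO
    obtain ⟨m, hm, hloc⟩ := hT' O hO
    obtain ⟨a, s, ha, hs, e⟩ := Interp.exists_van hm hloc hCf (hc O hO).1 (hc O hO).2
    exact ⟨a, s, ha, Interp.coe_ne hs, Interp.inv_mem hloc hs, e⟩)
  refine ⟨(b : F) * w ^ (M + 1), ?_, ?_, ?_⟩
  · rw [pow_succ, ← mul_assoc]
    exact mul_mem_hom hb (mem_hom_one.2 hw)
  · intro V hV hq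
    have hb0 : (b : F) ≠ 0 := left_ne_zero_of_mul hq
    obtain ⟨hVd, hVk⟩ := hC V hV
    have h1 : vh x V ((M + 1 : ℕ) : ℤ) ((b : F) * w ^ (M + 1)) =
        vh x V (M : ℤ) ((b : F) * w ^ M) + vh x V 1 w := by
      rw [pow_succ, ← mul_assoc, ← vh_mul hVd _ _ (mul_ne_zero hb0 (pow_ne_zero _ hw0)) hw0]
      push_cast
      rfl
    have h2 : 0 ≤ vh x V ((1 : ℕ) : ℤ) w := vh_nonneg hVd hVk hx (mem_hom_one.2 hw) hw0
    rw [Nat.cast_one] at h2
    rw [h1]
    by_cases hA : ∀ b ∈ chartOf k x w, b ∈ V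
    · have h3 : 0 < ord V (b : F) := (ord_pos_iff hVd hb0).2 (hbI V hV hA)
      have h4 : vh x V (M : ℤ) ((b : F) * w ^ M) = ord V (b : F) + M * vh x V 1 w := by
        unfold vh
        rw [ord_mul hVd hb0 (pow_ne_zero _ hw0), ord_pow hVd hw0]
        ring
      rw [h4]
      have h5 : 0 ≤ (M : ℤ) * vh x V 1 w := mul_nonneg (Int.natCast_nonneg _) h2
      omega
    · have h3 := Interp.vh_pos hx hw hw0 hVd hVk hA
      have h4 := vh_nonneg hVd hVk hx hb (mul_ne_zero hb0 (pow_ne_zero _ hw0))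
      omega
  · intro O hO hlr
    obtain ⟨y, hy, e⟩ := hbT O hO hlr
    exact ⟨y, hy, by rw [mul_div_cancel_right₀ _ (pow_ne_zero _ hw0), e]⟩

/-- **Interpolation**, without curves. -/
theorem interp (hx : ∀ i, x i ≠ 0) (hw : w ∈ Submodule.span k (Set.range x)) (hw0 : w ≠ 0)
    {T : Set (Subring F)} (hTf : T.Finite) (hT : ∀ O ∈ T, O ∈ Points (charts k x) ∧ Gen k x O w)
    (N : ℕ) :
    ∃ M₀ : ℕ, ∀ M ≥ M₀, ∀ c : Subring F → F, (∀ O ∈ T, c O ∈ O) →
      ∃ q ∈ hom k x M, ∀ O ∈ T, ∀ _ : IsLocalRing O,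
        ∃ y : O, y ∈ maximalIdeal O ^ N ∧ q / w ^ M - c O = y := by
  obtain ⟨M₀, h⟩ := interp_curves hx hw hw0 hTf hT (Set.finite_empty) (fun V hV => hV.elim) N
  refine ⟨M₀, fun M hM c hc => ?_⟩
  obtain ⟨q, hq, -, hqT⟩ := h M hM c fun O hO => ⟨hc O hO, fun V hV => hV.elim⟩
  exact ⟨q, hq, hqT⟩

end

end Pool.Agent.Lib.MP_b197b4_ntK
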