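import Mathlib
import Pool.Agent.Lib.MP_b197b4_ntG.Gen
import Pool.Agent.Lib.MP_b197b4_ntK.CurveN

/-!
# MP_b197b4_nt, project K1: the affine charts `w ≠ 0` of a normal projective surface
-/

set_option autoImplicit false

namespace Pool.Agent.Lib.MP_b197b4_ntK

open IsLocalRing

variable {k F : Type} [Field k] [Field F] [Algebra k F] {n : ℕ} {x : Fin (n + 1) → F}

/-- The ring of functions on `w ≠ 0` is a chart. -/
theorem chartN_chartOf (hS : SurfN k x) {w : F} (hw : w ∈ Submodule.span k (Set.range x))
    (hw0 : w ≠ 0) : ChartN (chartOf k x w) :=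
  ⟨chartOf_fg k x w, chartOf_frac hS.ne (hS.chart 0).frac hw hw0,
    chartOf_normal hS.ne (fun i => (hS.chart i).normal) hw hw0,
    chartOf_height hS.ne (fun i => (hS.chart i).height) hw hw0⟩

/-- A chart is determined by the linear forms. -/
theorem chartOf_congr {m : ℕ} {y : Fin (m + 1) → F}
    (h : Submodule.span k (Set.range y) = Submodule.span k (Set.range x)) {w : F} :
    chartOf k y w = chartOf k x w := by
  have key : ∀ {p q : ℕ} (u : Fin (p + 1) → F) (v : Fin (q + 1) → F),
      Submodule.span k (Set.range u) = Submodule.span k (Set.range v) →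
      chartOf k u w ≤ chartOf k v w := by
    intro p q u v huv
    unfold chartOf
    rw [Algebra.adjoin_le_iff]
    rintro _ ⟨j, rfl⟩
    have h1 : u j ∈ Submodule.span k (Set.range v) := by
      rw [← huv]
      exact Submodule.subset_span ⟨j, rfl⟩
    have h2 := div_mem_chartOf (w := w) (mem_hom_one.2 h1)
    rwa [pow_one] at h2
  exact le_antisymm (key y x h) (key x y h.symm)

theorem hom_congr {m : ℕ} {y : Fin (m + 1) → F}
    (h : Submodule.span k (Set.range y) = Submodule.span k (Set.range x)) (d : ℕ) :
    hom k y d = hom k x d := by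
  unfold hom
  rw [h]

theorem SurfN.congr {m : ℕ} {y : Fin (m + 1) → F} (hS : SurfN k x)
    (h : Submodule.span k (Set.range y) = Submodule.span k (Set.range x))
    (hy : ∀ i, y i ≠ 0) : SurfN k y := by
  refine ⟨hy, fun i => ?_⟩
  have h1 : y i ∈ Submodule.span k (Set.range x) := by
    rw [← h]
    exact Submodule.subset_span ⟨i, rfl⟩
  have h2 : ChartN (chartOf k y (y i)) := by
    rw [chartOf_congr h]
    exact chartN_chartOf hS h1 (hy i)
  exact h2

theorem points_congr {m : ℕ} {y : Fin (m + 1) → F}
    (h : Submodule.span k (Set.range y) = Submodule.span k (Set.range x))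
    (hx : ∀ i, x i ≠ 0) (hy : ∀ i, y i ≠ 0) : Points (charts k y) = Points (charts k x) := by
  have key : ∀ {p q : ℕ} (u : Fin (p + 1) → F) (v : Fin (q + 1) → F),
      Submodule.span k (Set.range u) = Submodule.span k (Set.range v) → (∀ i, u i ≠ 0) →
      (∀ i, v i ≠ 0) → Points (charts k u) ⊆ Points (charts k v) := by
    intro p q u v huv hu hv O hO
    obtain ⟨A, ⟨i, hA⟩, m, hm, hmO⟩ := hO
    have hA' : chartOf k u (u i) = A := hA
    rw [chartOf_congr huv] at hA'
    subst hA'
    have h1 : u i ∈ Submodule.span k (Set.range v) := by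
      rw [← huv]
      exact Submodule.subset_span ⟨i, rfl⟩
    exact (point_of_isLoc hv h1 (hu i) hm hmO).1
  exact Set.Subset.antisymm (key y x h hy hx) (key x y h.symm hx hy)

theorem curves_congr {m : ℕ} {y : Fin (m + 1) → F}
    (h : Submodule.span k (Set.range y) = Submodule.span k (Set.range x))
    (hx : ∀ i, x i ≠ 0) (hy : ∀ i, y i ≠ 0) : Curves (charts k y) = Curves (charts k x) := by
  have key : ∀ {p q : ℕ} (u : Fin (p + 1) → F) (v : Fin (q + 1) → F),
      Submodule.span k (Set.range u) = Submodule.span k (Set.range v) → (∀ i, u i ≠ 0) →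
      (∀ i, v i ≠ 0) → Curves (charts k u) ⊆ Curves (charts k v) := by
    intro p q u v huv hu hv V hV
    obtain ⟨A, ⟨i, hA⟩, hV⟩ := hV
    have hA' : chartOf k u (u i) = A := hA
    rw [chartOf_congr huv] at hA'
    subst hA'
    have h1 : u i ∈ Submodule.span k (Set.range v) := by
      rw [← huv]
      exact Submodule.subset_span ⟨i, rfl⟩
    exact ((curve_iff hv h1 (hu i)).1 hV).1
  exact Set.Subset.antisymm (key y x h hy hx) (key x y h.symm hx hy)

theorem Gen.congr {m : ℕ} {y : Fin (m + 1) → F}
    (h : Submodule.span k (Set.range y) = Submodule.span k (Set.range x)) {O : Subring F}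
    (hk : ∀ c : k, algebraMap k F c ∈ O) {w : F} (hw : Gen k x O w) : Gen k y O w where
  mem := by
    rw [h]
    exact hw.mem
  ne := hw.ne
  le j := by
    apply hw.lin hk
    rw [← h]
    exact Submodule.subset_span ⟨j, rfl⟩

end Pool.Agent.Lib.MP_b197b4_ntK
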