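import Pool.Agent.Lib.MP_b197b4_ntG.Gen

/-!
# MP_b197b4_nt, project K1: linear forms at points and curves
-/

set_option autoImplicit false

namespace Pool.Agent.Lib.MP_b197b4_ntK

variable {k : Type} {F : Type} [Field k] [Field F] [Algebra k F] {n : ℕ}
  {x : Fin (n + 1) → F}

/-- A linear form which does not vanish at a point of a curve does not vanish on the curve. -/
theorem Gen.curve {O : Subring F} {V : ValuationSubring F} (hOV : (O : Set F) ⊆ V) {w : F}
    (hw : Gen k x O w) : Gen k x V.toSubring w :=
  ⟨hw.mem, hw.ne, fun j => hOV (hw.le j)⟩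

end Pool.Agent.Lib.MP_b197b4_ntK
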