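import Mathlib
import Pool.Agent.Lib.MP_b197b4_ntG.Gen
import Pool.Agent.Lib.MP_b197b4_ntK.Avoid

/-!
# MP_b197b4_nt, project K1: avoidance (G2) with the predicate `Gen`
-/

set_option autoImplicit false

namespace Pool.Agent.Lib.MP_b197b4_ntK

open IsLocalRing

variable {k F : Type} [Field k] [Field F] [Algebra k F] {n : ℕ} {x : Fin (n + 1) → F}

/-- **AVOIDANCE (G2).** One linear form which vanishes on none of finitely many curves, at none of
finitely many points, and is in none of finitely many proper subspaces. -/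
theorem avoid_gen [Infinite k] (hS : Surf k x) {S : Set (ValuationSubring F)} (hSf : S.Finite)
    (hSC : ∀ V ∈ S, V ∈ Curves (charts k x)) {T : Set (Subring F)} (hT : T.Finite)
    (hTP : ∀ O ∈ T, O ∈ Points (charts k x)) {U : Set (Submodule k F)} (hU : U.Finite)
    (hUL : ∀ u ∈ U, ¬ Submodule.span k (Set.range x) ≤ u) :
    ∃ w : F, (∀ V ∈ S, Gen k x V.toSubring w) ∧ (∀ O ∈ T, Gen k x O w) ∧ (∀ u ∈ U, w ∉ u) ∧
      w ≠ 0 ∧ w ∈ Submodule.span k (Set.range x) := by
  obtain ⟨w, h1, h2, h3, h4, h5⟩ := avoid (k := k) hS.ne hSf hSC hT hTP hU hUL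
  exact ⟨w, fun V hV => ⟨h1, h2, h3 V hV⟩, fun O hO => ⟨h1, h2, h4 O hO⟩, h5, h2, h1⟩

/-- One generator for finitely many curves and points. -/
theorem gen_all [Infinite k] (hS : Surf k x) {S : Set (ValuationSubring F)} (hSf : S.Finite)
    (hSC : ∀ V ∈ S, V ∈ Curves (charts k x)) {T : Set (Subring F)} (hT : T.Finite)
    (hTP : ∀ O ∈ T, O ∈ Points (charts k x)) :
    ∃ w : F, (∀ V ∈ S, Gen k x V.toSubring w) ∧ (∀ O ∈ T, Gen k x O w) ∧
      w ≠ 0 ∧ w ∈ Submodule.span k (Set.range x) := by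
  obtain ⟨w, h1, h2, _, h3⟩ := avoid_gen hS hSf hSC hT hTP (U := ∅) Set.finite_empty
    (fun u hu => absurd hu (Set.notMem_empty u))
  exact ⟨w, h1, h2, h3⟩

/-- Two generators: a second linear form, nonzero at the same finitely many points and curves and not
proportional to the first one. -/
theorem gen_two [Infinite k] (hS : Surf k x) {S : Set (ValuationSubring F)} (hSf : S.Finite)
    (hSC : ∀ V ∈ S, V ∈ Curves (charts k x)) {T : Set (Subring F)} (hT : T.Finite)
    (hTP : ∀ O ∈ T, O ∈ Points (charts k x)) {v : F}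
    (hv : ¬ Submodule.span k (Set.range x) ≤ Submodule.span k {v}) :
    ∃ w : F, (∀ V ∈ S, Gen k x V.toSubring w) ∧ (∀ O ∈ T, Gen k x O w) ∧
      w ≠ 0 ∧ w ∈ Submodule.span k (Set.range x) ∧ w ∉ Submodule.span k {v} := by
  obtain ⟨w, h1, h2, h3, h4⟩ := avoid_gen hS hSf hSC hT hTP
    (U := {Submodule.span k {v}}) (Set.finite_singleton _) (by
      intro u hu
      rw [Set.mem_singleton_iff.1 hu]
      exact hv)
  exact ⟨w, h1, h2, h4.1, h4.2, h3 _ rfl⟩

end Pool.Agent.Lib.MP_b197b4_ntK
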